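import Pool.Agent.V7H23.AW.Main
import Pool.Agent.V7H23.AW.Red
import Pool.Agent.Y63.NV.PeL

/-!
# Navarro's blockwise conjecture follows from approximate forms for few blocks

The definitions `IsBlock`, `IsInvBlock`, `numIBr`, `numDz`, `InDefect`, `IsIrrTrace`, `IsClassFun` are
those of the files `Pool/Agent/Y63/NV/{Defs,Stm3}.lean`; `numIrrBlock` and `numWtBlock` those of
`Pool/Agent/Y63/NV/Bawc.lean`.

Proof. By the starting result `EquivalentToWeights` it suffices to treat Alperin's weight conjecture
for the blocks of the groups `H` in the class with `O_p(H) = 1` and without normal subgroups of index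
`p`. The irreducible Brauer characters, the blocks and the weights of a direct power `H ^ n` are the
tuples of those of `H`, and `log (l(B) / w(B))` is additive. If it does not vanish for all blocks of
`H`, then for only `O((1 + t) / √n)` of the tuples the sum of the logarithms is at most `t` in absolute
value (Littlewood-Offord).
-/

set_option autoImplicit false

open scoped Classical
open Filter

noncomputable section

namespace Pool.Agent.Results.MP_0c8ca5_al.ApproximateWeightsH23

open Pool.Agent.Y63.NV
open Pool.Agent.Y63.AWC (pSubgroupSetoid)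

/-- the right-hand side of Navarro's equality: the sum of the numbers `numDz p red G Q B` over
representatives `Q` of the `Γ`-classes of `Θ_B`, the set of the `p`-subgroups `Q` of `Γ` with `GQ = Γ`
such that `Q ∩ G` is contained in a defect group of `B` -/
def navarroSum (p : ℕ) {F : Type} [Field F] (red : integralClosure ℤ ℂ →+* F) {Γ : Type} [Group Γ]
    (G : Subgroup Γ) (B : (G → F) → F) : ℕ :=
  ∑ᶠ c : Quotient (pSubgroupSetoid p Γ),
    if G ⊔ c.out.1 = ⊤ ∧ InDefect p G B c.out.1 then numDz p red G c.out.1 B else 0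

/-- `w(B)`: the number of the classes of weights of `G` in the block `B` -/
def w (p : ℕ) {F : Type} [Field F] (red : integralClosure ℤ ℂ →+* F) {G : Type} [Group G]
    (B : (G → F) → F) : ℕ :=
  ∑ᶠ c : Quotient (pSubgroupSetoid p G), numWtBlock p red c.out.1 B

/-- the numbers `l(B)` and `w(B)` agree up to the factor `T` -/
def Near (p : ℕ) {F : Type} [Field F] (red : integralClosure ℤ ℂ →+* F) {G : Type} [Group G]
    (T : ℝ) (B : (G → F) → F) : Prop :=
  (numIrrBlock B : ℝ) ≤ T * w p red B ∧ (w p red B : ℝ) ≤ T * numIrrBlock B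

/-- the set of the `p`-blocks of `G`: functions as in `IsBlock` are the same block if they agree on the
class functions -/
def Block (F : Type) [Field F] (G : Type) [Group G] : Type :=
  Quotient (⟨fun B B' => ∀ f : G → F, IsClassFun f → B.1 f = B'.1 f, fun _ _ _ => rfl,
    fun h f hf => (h f hf).symm, fun h h' f hf => (h f hf).trans (h' f hf)⟩ :
    Setoid {B : (G → F) → F // IsBlock B})

/-- the number of all blocks of `G` -/
def numBlocks (F : Type) [Field F] (G : Type) [Group G] : ℕ := Nat.card (Block F G)

/-- the number of the blocks of `G` whose numbers agree up to the factor `T` -/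
def numNearBlocks (p : ℕ) {F : Type} [Field F] (red : integralClosure ℤ ℂ →+* F) (G : Type)
    [Group G] (T : ℝ) : ℕ :=
  Nat.card {b : Block F G // Near p red T b.out.1}

/-- the number of the irreducible Brauer characters of `G` (as irreducible characters over `F`) -/
def numIrr (F : Type) [Field F] (G : Type) [Group G] : ℕ := Nat.card {φ : G → F // IsIrrTrace φ}

/-- the number of those in blocks whose numbers agree up to the factor `T` -/
def numNearIrr (p : ℕ) {F : Type} [Field F] (red : integralClosure ℤ ℂ →+* F) (G : Type)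
    [Group G] (T : ℝ) : ℕ :=
  Nat.card {φ : G → F // IsIrrTrace φ ∧ ∃ B : (G → F) → F, IsBlock B ∧
    (∀ f : G → F, IsClassFun f → ∀ x : G, ∑ᶠ g : G, f g * φ (g * x) = B f * φ x) ∧
    Near p red T B}

/-- `G` has no normal subgroup of index `p` and no nontrivial normal `p`-subgroup -/
def Perf (p : ℕ) (G : Type) [Group G] : Prop :=
  (∀ N : Subgroup G, N.Normal → N.index ≠ p) ∧
    ∀ M : Subgroup G, M.Normal → IsPGroup p M → M = ⊥

section proofs

open Pool.Agent.N85.WM (numWts BEq blkOf blkOf_block blkOf_iff)
open Pool.Agent.V7H23.AW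

variable {p : ℕ} [Fact p.Prime] {F : Type} [Field F] [IsAlgClosed F] [CharP F p]
  (red : integralClosure ℤ ℂ →+* F) {G : Type} [Group G] [Finite G]

theorem numIrr_near (T : ℝ) : numNearIrr p red G T =
    Nat.card {φ : {φ : G → F // IsIrrTrace φ} // near p red T (blkOf φ)} := by
  unfold numNearIrr
  refine Nat.card_congr
    { toFun := fun φ => ⟨⟨φ.1, φ.2.1⟩, ?_⟩
      invFun := fun φ => ⟨φ.1.1, φ.1.2, blkOf φ.1, blkOf_block φ.1, ?_, φ.2⟩
      left_inv := fun φ => rfl
      right_inv := fun φ => rfl }
  · obtain ⟨h1, B, hB, h2, h3⟩ := φ.2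
    refine (near_congr red ?_).2 h3
    intro f hf
    exact (blkOf_iff ⟨φ.1, h1⟩ hf _).1 (h2 f hf)
  · intro f hf
    exact (blkOf_iff φ.1 hf _).2 rfl

theorem near_of_eq {T : ℝ} (hT : 1 ≤ T) {B : (G → F) → F} (h : numIrrBlock B = w p red B) :
    Near p red T B := by
  unfold Near
  rw [← h]
  have h0 : (0 : ℝ) ≤ numIrrBlock B := Nat.cast_nonneg _
  constructor <;> nlinarith

end proofs

/-- **Navarro's blockwise conjecture follows from approximate forms for few blocks.** Let `X` be a
class of groups (e.g. of all groups) closed under isomorphisms, subgroups, quotients by normal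
`p`-subgroups and, for finite groups, direct powers. Let `σ ≤ 1` and `t ≥ 0` be functions such that
`σ(m) √(log m) / (1 + t(m)) → ∞`. The following are equivalent.
(a) Navarro's equality holds for all `G ≤ Γ` such that `G` contains a normal subgroup `N ∈ X` of `Γ`
with `Γ/N` a `p`-group, and all `Γ`-invariant blocks of `G`.
(b) For all `ε > 0` and all sufficiently large finite groups `H ∈ X` without normal subgroups of index
`p` and nontrivial normal `p`-subgroups, `l(B)` and `w(B)` agree up to the factor `|H| ^ ε` for all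
blocks `B` of `H`.
(c) For all these groups `H`, `l(B)` and `w(B)` agree up to the factor `exp t(|H|)` for at least
`σ(|H|)` of the blocks `B` of `H`.
(d) For all these groups `H`, at least `σ(|H|)` of the irreducible Brauer characters of `H` belong to
blocks for which `l(B)` and `w(B)` agree up to the factor `exp t(|H|)`. -/
theorem result (p : ℕ) [Fact p.Prime] (F : Type) [Field F] [IsAlgClosed F] [CharP F p]
    (red : integralClosure ℤ ℂ →+* F) (X : ∀ (G : Type) [Group G], Prop)
    (hiso : ∀ (G H : Type) [Group G] [Group H], (G ≃* H) → X G → X H)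
    (hsub : ∀ (G : Type) [Group G] (H : Subgroup G), X G → X H)
    (hquot : ∀ (G : Type) [Group G] (M : Subgroup G) [M.Normal], IsPGroup p M → X G → X (G ⧸ M))
    (hpow : ∀ (G : Type) [Group G] [Finite G] (n : ℕ), X G → X (Fin n → G))
    (σ t : ℕ → ℝ) (hσ : ∀ m, σ m ≤ 1) (ht : ∀ m, 0 ≤ t m)
    (hlim : Tendsto (fun m : ℕ => σ m * √(Real.log m) / (1 + t m)) atTop atTop) :
    [∀ (Γ : Type) [Group Γ] [Finite Γ] (N G : Subgroup Γ) [N.Normal] [G.Normal], N ≤ G → X N →
        IsPGroup p (Γ ⧸ N) → ∀ B : (G → F) → F, IsBlock B → IsInvBlock G B →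
          numIBr G B = navarroSum p red G B,
      ∀ ε : ℝ, 0 < ε → ∃ n : ℕ, ∀ (H : Type) [Group H] [Finite H], X H → Perf p H →
        n ≤ Nat.card H → ∀ B : (H → F) → F, IsBlock B → Near p red ((Nat.card H : ℝ) ^ ε) B,
      ∀ (H : Type) [Group H] [Finite H], X H → Perf p H →
        σ (Nat.card H) * numBlocks F H ≤ numNearBlocks p red H (Real.exp (t (Nat.card H))),
      ∀ (H : Type) [Group H] [Finite H], X H → Perf p H →
        σ (Nat.card H) * numIrr F H ≤
          numNearIrr p red H (Real.exp (t (Nat.card H)))].TFAE := by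
  have hX : Closed p X := ⟨fun G H _ _ hG ⟨e⟩ => hiso G H e hG, fun G _ hG H => hsub G H hG,
    fun G _ hG M _ hM => hquot G M hM hG⟩
  have hp : p.Prime := Fact.out
  -- the conjecture for the reduced groups
  have e1 : (∀ (H : Type) [Group H] [Finite H], X H → Reduced p H → BAWC p red H) →
      ∀ (Γ : Type) [Group Γ] [Finite Γ] (N G : Subgroup Γ) [N.Normal] [G.Normal], N ≤ G → X N →
        IsPGroup p (Γ ⧸ N) → ∀ B : (G → F) → F, IsBlock B → IsInvBlock G B →
          numIBr G B = navarroSum p red G B := fun h =>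
    (block_strong (p := p) red X hX).1
      (fun H _ _ hH hR => (theta_iff p F red H ⊤).2 ((bawc_iff p red).1 (h H hH hR)))
  have e2 : (∀ (Γ : Type) [Group Γ] [Finite Γ] (N G : Subgroup Γ) [N.Normal] [G.Normal], N ≤ G →
      X N → IsPGroup p (Γ ⧸ N) → ∀ B : (G → F) → F, IsBlock B → IsInvBlock G B →
          numIBr G B = navarroSum p red G B) →
      ∀ (H : Type) [Group H] [Finite H], X H → Reduced p H → BAWC p red H := by
    intro h H _ _ hH hR
    exact (bawc_iff p red).2 ((theta_iff p F red H ⊤).1
      ((block_strong (p := p) red X hX).2 h H hH hR))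
  have hcard : ∀ (H : Type) [Group H] [Finite H] (n : ℕ),
      Nat.card (Fin n → H) = Nat.card H ^ n := by
    intro H _ _ n
    rw [Nat.card_fun, Nat.card_eq_fintype_card (α := Fin n), Fintype.card_fin]
  tfae_have 1 → 2 := by
    intro h ε hε
    refine ⟨1, fun H _ _ hH hR hc B hB => ?_⟩
    refine near_of_eq red ?_ (e2 h H hH ⟨hR.1, hR.2⟩ B hB)
    exact Real.one_le_rpow (by exact_mod_cast hc) hε.le
  tfae_have 1 → 3 := by
    intro h H _ _ hH hR
    have h1 : numNearBlocks p red H (Real.exp (t (Nat.card H))) = numBlocks F H := by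
      unfold numNearBlocks numBlocks
      refine Nat.card_congr (Equiv.subtypeUnivEquiv fun b => ?_)
      exact near_of_eq red (Real.one_le_exp (ht _)) (e2 h H hH ⟨hR.1, hR.2⟩ _ b.out.2)
    rw [h1]
    have h2 := hσ (Nat.card H)
    have h3 : (0 : ℝ) ≤ numBlocks F H := Nat.cast_nonneg _
    nlinarith
  tfae_have 1 → 4 := by
    intro h H _ _ hH hR
    have h1 : numNearIrr p red H (Real.exp (t (Nat.card H))) = numIrr F H := by
      rw [numIrr_near]
      unfold numIrr
      refine Nat.card_congr (Equiv.subtypeUnivEquiv fun φ => ?_)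
      exact near_of_eq red (Real.one_le_exp (ht _))
        (e2 h H hH ⟨hR.1, hR.2⟩ _ (Pool.Agent.N85.WM.blkOf_block φ))
    rw [h1]
    have h2 := hσ (Nat.card H)
    have h3 : (0 : ℝ) ≤ numIrr F H := Nat.cast_nonneg _
    nlinarith
  tfae_have 2 → 1 := by
    intro h
    refine e1 fun H _ _ hH hR => ?_
    refine Pool.Agent.V7H23.AW.bawc_of_eps red fun ε hε => ?_
    obtain ⟨N, hN⟩ := h ε hε
    refine ⟨N, fun n hn B hB => ?_⟩
    have hr := Pool.Agent.V7H23.AW.reduced_pow hp hR n
    have h1 := hN (Fin n → H) (hpow H n hH) ⟨hr.perfect, hr.radical⟩ (by rwa [hcard]) B hB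
    rw [hcard] at h1
    exact h1
  tfae_have 3 → 1 := by
    intro h
    refine e1 fun H _ _ hH hR => ?_
    refine Pool.Agent.V7H23.AW.bawc_of_blocks red σ t hσ ht hlim fun n => ?_
    have hr := Pool.Agent.V7H23.AW.reduced_pow hp hR n
    have h1 := h (Fin n → H) (hpow H n hH) ⟨hr.perfect, hr.radical⟩
    rw [hcard] at h1
    exact h1
  tfae_have 4 → 1 := by
    intro h
    refine e1 fun H _ _ hH hR => ?_
    refine Pool.Agent.V7H23.AW.bawc_of_share red σ t hσ ht hlim fun n => ?_
    have hr := Pool.Agent.V7H23.AW.reduced_pow hp hR n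
    have h1 := h (Fin n → H) (hpow H n hH) ⟨hr.perfect, hr.radical⟩
    rw [hcard, numIrr_near] at h1
    exact h1
  tfae_finish

end Pool.Agent.Results.MP_0c8ca5_al.ApproximateWeightsH23
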