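import Pool.Agent.V7H17.NE.CovM

/-!
# Navarro's blockwise conjecture for `p`-group extensions and the covering blocks

Let `G` be a normal subgroup of the finite group `Γ` such that `Γ/G` is a `p`-group and `B` a
`Γ`-invariant block of `G`.

The definitions `IsBlock`, `IsInvBlock`, `InZ`, `numIBr`, `numDz`, `IsClassFun` are those of the file
`Pool/Agent/Y63/NV/Defs.lean`; `numIrrBlock b` is the number `l(b)` of the irreducible characters over
`F` in the block `b`, and `numWts p red b` the number `w(b)` of the conjugacy classes of weights of
`b`, the sum of `numWtBlock` over representatives of the classes of `p`-subgroups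
(`Pool/Agent/Y63/NV/Bawc.lean`, `Pool/Agent/N85/WM/Modp.lean`). In `Pool/Agent/V7H17/NE`:

* `Covers hle B b`: `b` is a block of `Δ` which covers the block `B` of `G ≤ Δ`, that is, the central
  character of `b` agrees with that of `B` on the elements of the centre of `F[Δ]` with support in `G`;
* `IB B` is the set of the irreducible characters over `F` in the block `B`, `WT G p red B` the set of
  the weights `(Q, χ)` of `B`, both with the action of `Γ` by conjugation (see `Tr.lean`, `Wts.lean`
  and the result `EquivariantWeightsH17`);
* `Cl H S` is the set of the `H`-orbits on the `Γ`-set `S`, with the induced action of `Γ` if `H` is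
  normal;
* `blkOf hle B` is the block `B` of `G`, for `G` as a subgroup of `Δ`, and `navSum` is the right-hand
  side of Navarro's equality, the sum over the classes of `Θ_B`.

Proof. The number of weights of `b` is computed by sorting the weights `(Q, χ)` of `Δ` by the group
`GQ`. For a normal subgroup `M` of `Δ` of index `p` containing `G`, the local form of the comparison
of the weights of `Δ` and `M` (Dade-Glauberman-Nagao and Clifford) is a recursion for the numbers of
weights with `GQ = E`, with initial values the right-hand sides of Navarro's equality for the groups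
between `G` and `Δ`, that is, the numbers of fixed points on the set of the `G`-classes of weights of
`B`. The same recursion holds for the numbers of points with stabiliser `E` of a `Δ`-set. The rest is
Burnside's orbit formula.
-/

set_option autoImplicit false

open scoped Classical

noncomputable section

namespace Pool.Agent.Results.MP_0c8ca5_al.CoveringBlocksH17

open Pool.Agent.N85.WM
open Pool.Agent.Y63.NV
open Pool.Agent.V7H17.NE

/-- Alperin's weight conjecture for the block `b`. -/
def WeightConjecture (p : ℕ) {F : Type} [Field F] (red : integralClosure ℤ ℂ →+* F) {H : Type}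
    [Group H] (b : (H → F) → F) : Prop :=
  numIrrBlock b = numWts p red b

/-- Navarro's equality for the block `B` of `G` and the pair `(G, Δ)`. -/
def NavarroEquality (p : ℕ) {F : Type} [Field F] (red : integralClosure ℤ ℂ →+* F) {Γ : Type}
    [Group Γ] {G Δ : Subgroup Γ} (hle : G ≤ Δ) (B : (G → F) → F) : Prop :=
  numIBr (G.subgroupOf Δ) (blkOf hle B) = navSum p red (G.subgroupOf Δ) (blkOf hle B)

/-- **Navarro's blockwise conjecture for `p`-group extensions and the covering blocks.** Let `G` be a
normal subgroup of the finite group `Γ` such that `Γ/G` is a `p`-group and `B` a `Γ`-invariant block of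
`G`. All the statements are about this pair and this block; none assumes a case of a conjecture for
other groups.

(1) Every group `Δ` with `G ≤ Δ ≤ Γ` has exactly one block which covers `B`.

(2) For this block `b`, `l(b)` is the number of the `Δ`-orbits on `IBr(B)`, and the number of the
`Δ`-classes of weights of `b` is the number of the `Δ`-classes of weights of `B`. In particular the
weight conjecture for `b` says that `Δ` has the same number of orbits on `IBr(B)` and on the set of
the weights of `B`.

(3) The following are equivalent.
(a) Alperin's weight conjecture holds for the blocks covering `B` of all groups `G ≤ Δ ≤ Γ`.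
(b) The same for the groups `Δ` with `Δ/G` cyclic.
(c) Navarro's equality holds for `B` and the pairs `(G, Δ)` for all `G ≤ Δ ≤ Γ` with `Δ/G` cyclic.
(d) The permutation characters of `Γ` on `IBr(B)` and on the set of the `G`-classes of weights of `B`
are equal.

(4) If Navarro's equality holds for `B` and all pairs `(G, Δ)`, then the weight conjecture holds for
all the blocks in (a); if `Γ/G` is cyclic, then the converse holds as well.

(5) Let `G ≤ N ≤ Δ` with `|Δ : N| = p` and `Δ/G` cyclic, and let `b` and `b'` be the blocks of `N` and
of `Δ` which cover `B`. Then `p l(b') = l(b) + (p - 1) |IBr_Δ(B)|` and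
`p w(b') = w(b) + (p - 1) s`, where `s` is the right-hand side of Navarro's equality for `(G, Δ)`.
Hence if the weight conjecture holds for `b`, then Navarro's equality for `B` and `(G, Δ)` is
equivalent to the weight conjecture for `b'`. -/
theorem result (p : ℕ) [Fact p.Prime] (F : Type) [Field F] [IsAlgClosed F] [CharP F p]
    (red : integralClosure ℤ ℂ →+* F) (Γ : Type) [Group Γ] [Finite Γ] (G : Subgroup Γ) [G.Normal]
    (hG : IsPGroup p (Γ ⧸ G)) (B : (G → F) → F) (hB : IsBlock B) [Fact (IsInvBlock G B)] :
    (∀ (Δ : Subgroup Γ) (hle : G ≤ Δ), ∃ b : (Δ → F) → F, Covers hle B b ∧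
      ∀ b' : (Δ → F) → F, Covers hle B b' → ∀ f : Δ → F, IsClassFun f → b' f = b f) ∧
    (∀ (Δ : Subgroup Γ) (hle : G ≤ Δ) (b : (Δ → F) → F), Covers hle B b →
      numIrrBlock b = Nat.card (Cl Δ (IB B)) ∧
      numWts p red b = Nat.card (Cl Δ (WT G p red B))) ∧
    List.TFAE [∀ (Δ : Subgroup Γ) (hle : G ≤ Δ) (b : (Δ → F) → F), Covers hle B b →
        WeightConjecture p red b,
      ∀ (Δ : Subgroup Γ) (hle : G ≤ Δ) (b : (Δ → F) → F),
        IsCyclic (Δ.map (QuotientGroup.mk' G)) → Covers hle B b → WeightConjecture p red b,
      ∀ (Δ : Subgroup Γ) (hle : G ≤ Δ), IsCyclic (Δ.map (QuotientGroup.mk' G)) →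
        NavarroEquality p red hle B,
      ∀ γ : Γ, Nat.card {φ : IB B // γ • φ = φ} =
        Nat.card {C : Cl G (WT G p red B) // γ • C = C}] ∧
    (((∀ (Δ : Subgroup Γ) (hle : G ≤ Δ), NavarroEquality p red hle B) →
        ∀ (Δ : Subgroup Γ) (hle : G ≤ Δ) (b : (Δ → F) → F), Covers hle B b →
          WeightConjecture p red b) ∧
      (IsCyclic (Γ ⧸ G) → (∀ (Δ : Subgroup Γ) (hle : G ≤ Δ) (b : (Δ → F) → F),
          Covers hle B b → WeightConjecture p red b) →
        ∀ (Δ : Subgroup Γ) (hle : G ≤ Δ), NavarroEquality p red hle B)) ∧
    ∀ (N Δ : Subgroup Γ) (hN : G ≤ N) (hle : G ≤ Δ), N ≤ Δ → N.relIndex Δ = p →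
      IsCyclic (Δ.map (QuotientGroup.mk' G)) → ∀ (b : (N → F) → F) (b' : (Δ → F) → F),
      Covers hN B b → Covers hle B b' →
      p * numIrrBlock b' = numIrrBlock b +
        (p - 1) * numIBr (G.subgroupOf Δ) (blkOf hle B) ∧
      p * numWts p red b' = numWts p red b +
        (p - 1) * navSum p red (G.subgroupOf Δ) (blkOf hle B) ∧
      (WeightConjecture p red b → (NavarroEquality p red hle B ↔ WeightConjecture p red b')) := by
  have ht := cov_tfae G red hG B hB
  refine ⟨fun Δ hle => cov_unique G hG B hB hle, ?_, ht, ⟨?_, ?_⟩, ?_⟩
  · intro Δ hle b hb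
    obtain ⟨h1, h2⟩ := lw_cov G red hG B hB hle hb
    exact ⟨h1, h2.trans (cl_cl G hle (WT G p red B))⟩
  · intro h
    exact (ht.out 2 0).1 fun Δ hle _ => h Δ hle
  · intro hc h Δ hle
    have h3 : ∀ (Δ : Subgroup Γ) (hle : G ≤ Δ), IsCyclic (Δ.map (QuotientGroup.mk' G)) →
        numIBr (G.subgroupOf Δ) (blkOf hle B) = navSum p red (G.subgroupOf Δ) (blkOf hle B) :=
      (ht.out 0 2).1 h
    exact h3 Δ hle inferInstance
  · intro N Δ hN hle hND hi hc b b' hb hb'
    obtain ⟨h1, h2⟩ := cov_step G red hG B hB N Δ hN hle hND hi hc b b' hb hb'
    refine ⟨h1, h2, fun h3 => ?_⟩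
    have hp : 2 ≤ p := (Fact.out : p.Prime).two_le
    have h3' : numIrrBlock b = numWts p red b := h3
    rw [h3'] at h1
    constructor
    · intro h4
      have h4' : numIBr (G.subgroupOf Δ) (blkOf hle B) =
        navSum p red (G.subgroupOf Δ) (blkOf hle B) := h4
      rw [h4', ← h2] at h1
      exact Nat.eq_of_mul_eq_mul_left (by omega) h1
    · intro h4
      have h4' : numIrrBlock b' = numWts p red b' := h4
      rw [h4', h2] at h1
      exact (Nat.eq_of_mul_eq_mul_left (by omega) (Nat.add_left_cancel h1)).symm

end Pool.Agent.Results.MP_0c8ca5_al.CoveringBlocksH17
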