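import Pool.Agent.V7H17.NE.Main

/-!
# Navarro's blockwise conjecture for `p`-group extensions and equivariant bijections

Let `G` be a normal subgroup of the finite group `Γ` such that `Γ/G` is a `p`-group and `B` a
`Γ`-invariant block of `G`.

The definitions `IsBlock`, `IsInvBlock`, `numIBr`, `numDz`, `InDefect`, `IsIrrTrace`, `IsClassFun` are
those of the files `Pool/Agent/Y63/NV/{Defs,Stm3}.lean`, `numIrrBlock` (the number `l(B)`),
`numWtBlock` and `BAWC` (the blockwise Alperin weight conjecture for a group) are those of
`Pool/Agent/Y63/NV/Bawc.lean`, `Reduced` (no normal subgroup of index `p`, no nontrivial normal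
`p`-subgroup) that of `Pool/Agent/Y63/NV/Free2.lean`. In `Pool/Agent/V7H17/NE`:

* `IB B` is the set of the irreducible characters over `F` in the block `B` of `G`, with the action
  of `Γ` by conjugation;
* `WT G p red B` is the set of the weights `(Q, χ)` of `B`: `Q` is a `p`-subgroup of `G`, `χ` the
  inflation to `N_G(Q)` (extended by `0` to `G`) of a `p`-defect zero character of `N_G(Q)/Q` such
  that the block of `G` induced by the block of `χ` is `B`; `Γ` acts by conjugation;
* `Cl G W` is the set of the `G`-orbits on `W`, with the induced action of `Γ`;
* `navSum p red G B` is the right-hand side of Navarro's equality: the sum of `numDz p red G Q B`,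
  the number of the characters in `dz(N_Γ(Q)/Q | B)`, over representatives `Q` of the classes of
  `Θ_B`;
* for `G ≤ Δ ≤ Γ`, `blkOf hle B` is the block `B` of `G`, for `G` as a subgroup of `Δ`.

Proof. For a `p`-subgroup `D` of `G` and an `N_Γ(D)`-invariant weight character `χ` of `N_G(D)` with
`Γ = G N_Γ(D)`, the Dade-Glauberman-Nagao correspondence, in the form of a count of the characters of
defect zero of the groups `N_Γ(Q)/Q`, `Q ∩ G = D`, which cover `χ`, shows that the right-hand side of
Navarro's equality is the number of the `Γ`-invariant `G`-classes of weights of `B`. This for all the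
groups between `G` and `Γ`, and Burnside's theorem that finite `Γ`-sets with the same numbers of fixed
points for all subgroups are isomorphic, give the equivalence with equivariant bijections. The last
part combines this with the starting result `EquivalentToWeights`.
-/

set_option autoImplicit false

open scoped Classical

noncomputable section

namespace Pool.Agent.Results.MP_0c8ca5_al.EquivariantWeightsH17

open Pool.Agent.Y63.NV
open Pool.Agent.Y63.AWC (pSubgroupSetoid)
open Pool.Agent.V7H17.NE

/-- There is a bijection, commuting with the action of `Γ`, between the irreducible Brauer characters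
of the `Γ`-invariant block `B` of `G` and the `G`-classes of weights of `B`. -/
def EquivariantBijection (p : ℕ) {F : Type} [Field F] (red : integralClosure ℤ ℂ →+* F) {Γ : Type}
    [Group Γ] [Finite Γ] (G : Subgroup Γ) [G.Normal] (B : (G → F) → F)
    [Fact (IsInvBlock G B)] : Prop :=
  ∃ e : IB B ≃ Cl G (WT G p red B), ∀ (g : Γ) (φ : IB B), e (g • φ) = g • e φ

/-- **Navarro's blockwise conjecture for `p`-group extensions and equivariant bijections.**

(1) For every finite group `Γ`, every normal subgroup `G` such that `Γ/G` is a `p`-group and every
`Γ`-invariant block `B` of `G`, unconditionally: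
(a) the right-hand side of Navarro's equality is the number of the `Γ`-invariant `G`-conjugacy
classes of weights of `B`;
(b) Navarro's equality holds for `B` and the pairs `(G, Δ)` for all `G ≤ Δ ≤ Γ` if and only if there
is a `Γ`-equivariant bijection between `IBr(B)` and the set of the `G`-classes of weights of `B`;
(c) if `B` satisfies Alperin's weight conjecture (`l(B)` is the number of the classes of weights of
`B`), then the two sides of Navarro's equality for `B` and `(G, Γ)` are congruent modulo `p`, and
they are equal if moreover `l(B) < p`.

(2) Let `X` be a class of groups closed under isomorphisms, subgroups and quotients by normal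
`p`-subgroups, e.g. the class of all groups. The blockwise Alperin weight conjecture for the finite
groups in `X` without normal subgroups of index `p` and nontrivial normal `p`-subgroups is equivalent
to the existence of `Γ`-equivariant bijections for all `Γ`-invariant blocks of all normal subgroups
`G` of finite groups `Γ` such that `G` contains a normal subgroup `N` of `Γ` in `X` for which `Γ/N`
is a `p`-group. -/
theorem result (p : ℕ) [Fact p.Prime] (F : Type) [Field F] [IsAlgClosed F] [CharP F p]
    (red : integralClosure ℤ ℂ →+* F) :
    (∀ (Γ : Type) [Group Γ] [Finite Γ] (G : Subgroup Γ) [G.Normal], IsPGroup p (Γ ⧸ G) →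
      ∀ B : (G → F) → F, IsBlock B → ∀ [Fact (IsInvBlock G B)],
      (navSum p red G B = Nat.card {C : Cl G (WT G p red B) // ∀ g : Γ, g • C = C}) ∧
      ((∀ (Δ : Subgroup Γ) (hle : G ≤ Δ), numIBr (G.subgroupOf Δ) (blkOf hle B) =
          navSum p red (G.subgroupOf Δ) (blkOf hle B)) ↔ EquivariantBijection p red G B) ∧
      (numIrrBlock B = ∑ᶠ c : Quotient (pSubgroupSetoid p G), numWtBlock p red c.out.1 B →
        numIBr G B ≡ navSum p red G B [MOD p] ∧
        (numIrrBlock B < p → numIBr G B = navSum p red G B))) ∧
    ∀ (X : ∀ (G : Type) [Group G], Prop),
      (∀ (G H : Type) [Group G] [Group H], (G ≃* H) → X G → X H) →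
      (∀ (G : Type) [Group G] (H : Subgroup G), X G → X H) →
      (∀ (G : Type) [Group G] (M : Subgroup G) [M.Normal], IsPGroup p M → X G → X (G ⧸ M)) →
      ((∀ (H : Type) [Group H] [Finite H], X H → Reduced p H → BAWC p red H) ↔
        ∀ (Γ : Type) [Group Γ] [Finite Γ] (N G : Subgroup Γ) [N.Normal] [G.Normal], N ≤ G → X N →
          IsPGroup p (Γ ⧸ N) → ∀ B : (G → F) → F, IsBlock B → ∀ [Fact (IsInvBlock G B)],
          EquivariantBijection p red G B) := by
  refine ⟨?_, ?_⟩
  · intro Γ _ _ G _ hG B hB hI
    refine ⟨?_, equiv_iff G p red hG B hB, fun hw => ?_⟩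
    · rw [navSum_eq G p red hB hI.out, countA G p red hG B hB]
    · obtain ⟨h1, h2, h3, h4⟩ := one_block G p red hG B hB
      rw [← hw] at h2 h4
      refine ⟨h1.symm.trans h2, fun hlt => ?_⟩
      have h5 := Nat.ModEq.eq_of_lt_of_lt (h1.symm.trans h2) (h3.trans_lt hlt) (h4.trans_lt hlt)
      exact h5
  · intro X hiso hsub hquot
    exact class_iff p F red X
      ⟨fun G H _ _ hG e => hiso G H e.some hG, fun G _ hG H => hsub G H hG,
        fun G _ hG M _ hM => hquot G M hM hG⟩

end Pool.Agent.Results.MP_0c8ca5_al.EquivariantWeightsH17
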