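import Pool.Agent.V7H17.NE.RankE

/-!
# Navarro's blockwise conjecture for `p`-group extensions and the covering blocks, II

Let `G` be a normal subgroup of the finite group `Γ` such that `Γ/G` is a `p`-group and `B` a
`Γ`-invariant block of `G`. For `G ≤ Δ ≤ Γ` let `b_Δ` be the unique block of `Δ` which covers `B` (see
`CoveringBlocksH17`). Navarro's equality for `B` and `(G, Γ)` has the companions for the blocks `b_Δ`
and the pairs `(Δ, D)`, `G ≤ Δ ⊴ D ≤ Γ`; for `Δ = D` this is the weight conjecture for `b_Δ`.

The definitions `IsBlock`, `IsInvBlock`, `InZ`, `numIBr`, `numDz`, `IsClassFun` are those of the file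
`Pool/Agent/Y63/NV/Defs.lean`; `numIrrBlock b` is the number `l(b)` of the irreducible characters over
`F` in the block `b`, and `numWts p red b` the number `w(b)` of the conjugacy classes of weights of
`b`, the sum of `numWtBlock` over representatives of the classes of `p`-subgroups
(`Pool/Agent/Y63/NV/Bawc.lean`, `Pool/Agent/N85/WM/Modp.lean`). In `Pool/Agent/V7H17/NE`:

* `Covers hle B b`: `b` is a block of `Δ` which covers the block `B` of `G ≤ Δ`;
* `IB B` is the set of the irreducible characters over `F` in the block `B`, `WT G p red B` the set of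
  the weights `(Q, χ)` of `B`, both with the action of `Γ` by conjugation;
* `Cl H S` is the set of the `H`-orbits on the `Γ`-set `S`, with the induced action of `Γ` if `H` is
  normal;
* `blkOf hle B` is the block `B` of `G`, for `G` as a subgroup of `Δ`, and `navSum` is the right-hand
  side of Navarro's equality, the sum over the classes of `Θ_B`.

Proof. The numbers of invariant irreducible characters of `b_Δ`: on the space of the functions on the
`p`-regular elements of `G` which belong to `B` and are invariant under `Δ` the group `Γ` permutes two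
bases, the restrictions of the irreducible characters of `b_Δ` and the sums over the `Δ`-orbits on
`IBr(B)`; in characteristic `p` a `p`-group has the same number of fixed points on two such bases. The
weights of `Δ` are sorted by the groups `GQ`, as in `CoveringBlocksH17`. So the two sides of Navarro's
equality for `b_Δ` and `(Δ, D)` are the numbers of the `D`-stable `Δ`-orbits on `IBr(B)` and on the set
of the weights of `B`. For sets with an action of a `p`-group, the number of the `D`-stable
`Δ`-orbits does not change if `Δ` is enlarged within the Frattini subgroup of `D` modulo `Δ`. If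
`D/Δ` is elementary abelian of rank `r` and `Δ₁/Δ` has order `p`, then
`p f(Δ₁, D) + p ^ (r - 1) f(Δ, D) = p f(Δ, D) + ∑ f(Δ, H)`, where `f(Δ, D)` is the number in
question and `H` runs over the subgroups of index `p` of `D` which contain `Δ` but not `Δ₁`; this
determines `f(Δ, D)` by the other numbers if `r ≠ 2`.
-/

set_option autoImplicit false

open scoped Classical

noncomputable section

namespace Pool.Agent.Results.MP_0c8ca5_al.RankTwoReductionH17

open Pool.Agent.N85.WM
open Pool.Agent.Y63.NV
open Pool.Agent.V7H17.NE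

/-- Alperin's weight conjecture for the block `b`. -/
def WeightConjecture (p : ℕ) {F : Type} [Field F] (red : integralClosure ℤ ℂ →+* F) {H : Type}
    [Group H] (b : (H → F) → F) : Prop :=
  numIrrBlock b = numWts p red b

/-- The difference of the two sides of Navarro's equality for the block `B` of `G` and the pair
`(G, Δ)`. -/
def navDiff (p : ℕ) {F : Type} [Field F] (red : integralClosure ℤ ℂ →+* F) {Γ : Type}
    [Group Γ] {G Δ : Subgroup Γ} (hle : G ≤ Δ) (B : (G → F) → F) : ℤ :=
  numIBr (G.subgroupOf Δ) (blkOf hle B) - navSum p red (G.subgroupOf Δ) (blkOf hle B)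

/-- There is a `Γ`-equivariant bijection of `S` and `T`. -/
def EquivBij (Γ S T : Type) [Group Γ] [MulAction Γ S] [MulAction Γ T] : Prop :=
  ∃ e : S ≃ T, ∀ (g : Γ) (s : S), e (g • s) = g • e s

/-- The permutation modules of the `Γ`-sets `S` and `T` over `F` are isomorphic. -/
def PermIso (F Γ S T : Type) [Field F] [Group Γ] [MulAction Γ S] [MulAction Γ T] : Prop :=
  ∃ e : (S →₀ F) ≃ₗ[F] (T →₀ F), ∀ (g : Γ) (x : S →₀ F),
    e (Finsupp.mapDomain (fun s => g • s) x) = Finsupp.mapDomain (fun t => g • t) (e x)

/-- **Navarro's blockwise conjecture for `p`-group extensions and the covering blocks.** Let `G` be a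
normal subgroup of the finite group `Γ` such that `Γ/G` is a `p`-group, `B` a `Γ`-invariant block of
`G` and `b_Δ` the block of `Δ` covering `B`, for `G ≤ Δ ≤ Γ`.

(1) Let `Δ` be normal in `Γ`. Then `b_Δ` is `Γ`-invariant, and there are `Γ`-equivariant bijections
from `IBr(b_Δ)` to the set of the `Δ`-orbits on `IBr(B)` and from the set of the `Δ`-classes of the
weights of `b_Δ` to the set of the `Δ`-orbits on the set of the weights of `B`.

(2) The following are equivalent.
(a) Navarro's equality holds for `B` and all pairs `(G, D)`, `G ≤ D ≤ Γ`.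
(b) Navarro's equality holds for `b_Δ` and all pairs `(Δ, D)`, `G ≤ Δ ⊴ D ≤ Γ`.
(c) Alperin's weight conjecture holds for the blocks `b_Δ` with `Δ/G` cyclic, and Navarro's equality
holds for `b_Δ` and `(Δ, D)` if `D/Δ` is elementary abelian of order `p ^ 2` and `l(b_Δ) ≥ p (p + 1)`.
(d) The permutation modules over `F` of `Γ` on `IBr(B)` and on the set of the `G`-classes of weights
of `B` are isomorphic.
In particular, if `l(B) < p (p + 1)`, then (a) is equivalent to the weight conjecture for the blocks
`b_Δ` with `Δ/G` cyclic.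

(3) Let `G ≤ Δ ⊴ D ≤ Γ` such that `Δ/G` is contained in the Frattini subgroup of `D/G`, for example
`Δ = G`. The difference `d` of the two sides of Navarro's equality is the same for `B` and `(G, D)` and
for `b_Δ` and `(Δ, D)`. If the weight conjecture holds for the two blocks `b_Δ` and `b_D`, then
`d = 0`, or `p` divides `d`, `l(b_Δ) ≥ p (|d| + 1)` and `|D : Δ|` does not divide `p`. If the weight
conjecture holds for `b_Δ` and `l(b_Δ) < p ^ 2`, then `d = 0` if and only if the weight conjecture
holds for `b_D`. -/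
theorem result (p : ℕ) [Fact p.Prime] (F : Type) [Field F] [IsAlgClosed F] [CharP F p]
    (red : integralClosure ℤ ℂ →+* F) (Γ : Type) [Group Γ] [Finite Γ] (G : Subgroup Γ) [G.Normal]
    (hG : IsPGroup p (Γ ⧸ G)) (B : (G → F) → F) (hB : IsBlock B) [Fact (IsInvBlock G B)] :
    (∀ (Δ : Subgroup Γ) [Δ.Normal] (hle : G ≤ Δ) (b : (Δ → F) → F), Covers hle B b →
      ∃ _ : Fact (IsInvBlock Δ b), EquivBij Γ (IB b) (Cl Δ (IB B)) ∧
        EquivBij Γ (Cl Δ (WT Δ p red b)) (Cl Δ (WT G p red B))) ∧
    (List.TFAE [∀ (D : Subgroup Γ) (hle : G ≤ D), navDiff p red hle B = 0,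
        ∀ (Δ D : Subgroup Γ) (hle : G ≤ Δ) (hΔ : Δ ≤ D), (Δ.subgroupOf D).Normal →
          ∀ b : (Δ → F) → F, Covers hle B b → navDiff p red hΔ b = 0,
        (∀ (Δ : Subgroup Γ) (hle : G ≤ Δ) (b : (Δ → F) → F),
          IsCyclic (Δ.map (QuotientGroup.mk' G)) → Covers hle B b →
          WeightConjecture p red b) ∧
        ∀ (Δ D : Subgroup Γ) (hle : G ≤ Δ) (hΔ : Δ ≤ D), (Δ.subgroupOf D).Normal →
          Δ.relIndex D = p ^ 2 → (∀ x ∈ D, x ^ p ∈ Δ) →
          ∀ b : (Δ → F) → F, Covers hle B b → p * (p + 1) ≤ numIrrBlock b →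
          navDiff p red hΔ b = 0,
        PermIso F Γ (IB B) (Cl G (WT G p red B))] ∧
      (numIrrBlock B < p * (p + 1) →
        ((∀ (D : Subgroup Γ) (hle : G ≤ D), navDiff p red hle B = 0) ↔
          ∀ (Δ : Subgroup Γ) (hle : G ≤ Δ) (b : (Δ → F) → F),
            IsCyclic (Δ.map (QuotientGroup.mk' G)) → Covers hle B b →
            WeightConjecture p red b))) ∧
    ∀ (Δ D : Subgroup Γ) (hle : G ≤ Δ) (hΔ : Δ ≤ D), (Δ.subgroupOf D).Normal →
      (∀ H : Subgroup Γ, G ≤ H → H ≤ D → H ⊔ Δ = D → H = D) →
      ∀ (b : (Δ → F) → F) (b' : (D → F) → F), Covers hle B b → Covers (hle.trans hΔ) B b' →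
      navDiff p red (hle.trans hΔ) B = navDiff p red hΔ b ∧
      (WeightConjecture p red b → WeightConjecture p red b' →
        navDiff p red (hle.trans hΔ) B = 0 ∨
        ((p : ℤ) ∣ navDiff p red (hle.trans hΔ) B ∧
          p * (|navDiff p red (hle.trans hΔ) B| + 1) ≤ numIrrBlock b ∧ ¬ Δ.relIndex D ∣ p)) ∧
      (WeightConjecture p red b → numIrrBlock b < p ^ 2 →
        (navDiff p red (hle.trans hΔ) B = 0 ↔ WeightConjecture p red b')) := by
  have hd : ∀ {G Δ : Subgroup Γ} (hle : G ≤ Δ) (B : (G → F) → F), navDiff p red hle B = 0 ↔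
      numIBr (G.subgroupOf Δ) (blkOf hle B) = navSum p red (G.subgroupOf Δ) (blkOf hle B) := by
    intro G Δ hle B
    unfold navDiff
    rw [sub_eq_zero]
    exact Nat.cast_inj
  refine ⟨?_, ⟨?_, ?_⟩, ?_⟩
  · intro Δ _ hle b hb
    obtain ⟨w, hw⟩ := exists_sepEl G hB (Fact.out : IsInvBlock G B)
    exact ⟨⟨inv_up G hG hB hw hle hb⟩, @up_equiv F _ _ p _ _ Γ _ _ G _ red hG B hB _ Δ _ hle b hb
      ⟨inv_up G hG hB hw hle hb⟩⟩
  · simp only [hd]
    have ht := rank_tfae G red hG B hB
    tfae_have 1 ↔ 2 := ht.out 0 1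
    tfae_have 1 ↔ 3 := ht.out 0 2
    tfae_have 1 ↔ 4 := nav_perm G red hG B hB
    tfae_finish
  · intro hl
    simp only [hd]
    exact small_all G red hG B hB hl
  · intro Δ D hle hΔ hn hfr b b' hb hb'
    obtain ⟨⟨h1, h2⟩, h3, h4⟩ := two_blocks G red hG B hB Δ D hle hΔ hn hfr b b' hb hb'
    refine ⟨?_, fun a1 a2 => ?_, fun a1 a2 => ?_⟩
    · unfold navDiff
      rw [h1, h2]
    · by_cases h5 : navDiff p red (hle.trans hΔ) B = 0
      · exact Or.inl h5
      · exact Or.inr (h3 a1 a2 fun h6 => h5 ((hd _ _).2 h6))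
    · rw [hd]
      exact h4 a1 a2

end Pool.Agent.Results.MP_0c8ca5_al.RankTwoReductionH17
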